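import Pool.Agent.W2helper81.TW.Stm

/-!
# Project TW, piece BDD: bounded characters on the zero set
-/

set_option autoImplicit false

open scoped BigOperators

namespace Pool.Agent.W2helper6.TW

open Pool.Agent.W2helper81.TV hiding chart QuasiSmooth
open Pool.Agent.W2helper81.TW

theorem span_coord {m : ℕ} {σ : Finset (Fin m → ℤ)} (hc : σ.card = m)
    (hl : LinearIndependent ℝ (fun v : σ => toR (v : Fin m → ℤ))) (x : Fin m → ℝ) :
    ∃ b : σ → ℝ, ∑ v : σ, b v • toR (v : Fin m → ℤ) = x := by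
  have h := hl.span_eq_top_of_card_eq_finrank' (by simp [hc])
  exact (Submodule.mem_span_range_iff_exists_fun ℝ).1 (h ▸ Submodule.mem_top)

theorem pair_eq {m : ℕ} (σ : Finset (Fin m → ℤ)) (l : σ → ℂ) (L : Fin m → ℂ)
    (hL : ∀ i, L i = ∑ v : σ, ((v : Fin m → ℤ) i : ℂ) * l v) (u : Fin m → ℤ) :
    ∑ i, (u i : ℂ) * L i = ∑ v : σ, (pr u (v : Fin m → ℤ) : ℂ) * l v := by
  simp only [hL, Finset.mul_sum, pr, Int.cast_sum, Int.cast_mul, Finset.sum_mul]
  rw [Finset.sum_comm]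
  simp only [mul_assoc]

theorem eval_chart {m : ℕ} (d : (Fin m → ℤ) → ℤ) (f : (Fin m → ℤ) →₀ ℂ)
    (σ : Finset (Fin m → ℤ)) (hs : ∀ u ∈ f.support, ∀ v ∈ σ, -(d v) ≤ pr u v)
    (l : σ → ℂ) (L : Fin m → ℂ) (hL : ∀ i, L i = ∑ v : σ, ((v : Fin m → ℤ) i : ℂ) * l v) :
    MvPolynomial.eval (fun v => Complex.exp (l v)) (chart d f σ) =
      Complex.exp (∑ v : σ, (d v : ℂ) * l v) *
        ∑ u ∈ f.support, f u * Complex.exp (∑ i, (u i : ℂ) * L i) := by
  unfold chart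
  rw [map_sum, Finset.mul_sum]
  refine Finset.sum_congr rfl fun u hu => ?_
  rw [MvPolynomial.eval_monomial, Finsupp.prod_fintype _ _ (by simp), pair_eq σ l L hL u,
    mul_left_comm, ← Complex.exp_add, ← Finset.sum_add_distrib, Complex.exp_sum]
  congr 1
  refine Finset.prod_congr rfl fun v _ => ?_
  rw [← Complex.exp_nat_mul]
  congr 1
  have h1 : 0 ≤ pr u (v : Fin m → ℤ) + d v := by
    have := hs u hu v v.2
    linarith
  have h2 : (((pr u (v : Fin m → ℤ) + d v).toNat : ℕ) : ℂ) = (pr u (v : Fin m → ℤ) : ℂ) + d v := by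
    have h3 : (((pr u (v : Fin m → ℤ) + d v).toNat : ℤ) : ℂ) =
        ((pr u (v : Fin m → ℤ) + d v : ℤ) : ℂ) := by
      rw [Int.toNat_of_nonneg h1]
    rw [Int.cast_natCast] at h3
    rw [h3]
    push_cast
    ring
  simp only [Finsupp.equivFunOnFinite_symm_apply_apply]
  rw [h2]
  ring

/-- the bound in one chart -/
theorem bdd_chart {m : ℕ} (F : Fan m) (d : (Fin m → ℤ) → ℤ) (f : (Fin m → ℤ) →₀ ℂ)
    (hF : IsCompleteSimplicial F) (hs : IsSection F d f) (ht : TrivialCanonical F d f)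
    (w : Fin m → ℤ) (hw : ∀ σ ∈ F, ∀ v ∈ σ, 1 - d v ≤ pr w v) (σ : Finset (Fin m → ℤ))
    (hσ : σ ∈ F) : ∃ C : ℝ, 0 ≤ C ∧ ∀ L : Fin m → ℂ,
      ∑ u ∈ f.support, f u * Complex.exp (∑ i, (u i : ℂ) * L i) = 0 →
        (fun i => -(L i).re) ∈ coneOf σ → (∑ i, (w i : ℂ) * L i).re ≤ C := by
  -- lower bound of `|y v|`
  have hK : ∀ v : σ, 2 ≤ d v → ∃ δ : ℝ, 0 < δ ∧ ∀ y : σ → ℂ, (∀ v, ‖y v‖ ≤ 1) →
      MvPolynomial.eval y (chart d f σ) = 0 → δ ≤ ‖y v‖ := by
    intro v hv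
    let K : Set (σ → ℂ) := (Set.univ.pi fun _ => Metric.closedBall (0 : ℂ) 1) ∩
      {y | MvPolynomial.eval y (chart d f σ) = 0}
    have hKc : IsCompact K := by
      refine (isCompact_univ_pi fun _ => isCompact_closedBall _ _).inter_right ?_
      exact isClosed_eq (MvPolynomial.continuous_eval _) continuous_const
    have hcont : ContinuousOn (fun y : σ → ℂ => ‖y v‖) K :=
      (continuous_norm.comp (continuous_apply v)).continuousOn
    have hpos : ∀ y ∈ K, 0 < ‖y v‖ := by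
      intro y hy
      exact norm_pos_iff.2 (ht.2 σ hσ y hy.2 v hv)
    obtain ⟨δ, h1, h2⟩ := hKc.exists_forall_le' hcont hpos
    refine ⟨δ, h1, fun y hy hy2 => h2 y ⟨?_, hy2⟩⟩
    intro v' _
    simpa using hy v'
  have hA : ∀ v : σ, ∃ A : ℝ, 0 ≤ A ∧ ∀ a : ℝ, 0 ≤ a → (2 ≤ d v → ∃ y : σ → ℂ,
      (∀ v, ‖y v‖ ≤ 1) ∧ MvPolynomial.eval y (chart d f σ) = 0 ∧ ‖y v‖ = Real.exp (-a)) →
      -(pr w (v : Fin m → ℤ) : ℝ) * a ≤ A := by
    intro v
    by_cases hv : 2 ≤ d v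
    · obtain ⟨δ, h1, h2⟩ := hK v hv
      refine ⟨|(pr w (v : Fin m → ℤ) : ℝ)| * |Real.log δ|, by positivity, ?_⟩
      intro a ha hy
      obtain ⟨y, hy1, hy2, hy3⟩ := hy hv
      have h3 := h2 y hy1 hy2
      rw [hy3] at h3
      have h4 : Real.log δ ≤ -a := by
        have := Real.log_le_log h1 h3
        rwa [Real.log_exp] at this
      have h5 : a ≤ |Real.log δ| := by
        have := neg_abs_le (Real.log δ)
        have := neg_le_abs (Real.log δ)
        linarith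
      calc -(pr w (v : Fin m → ℤ) : ℝ) * a ≤ |(pr w (v : Fin m → ℤ) : ℝ)| * a :=
            mul_le_mul_of_nonneg_right (neg_le_abs _) ha
        _ ≤ _ := mul_le_mul_of_nonneg_left h5 (abs_nonneg _)
    · refine ⟨0, le_rfl, fun a ha _ => ?_⟩
      have h1 := ht.1 σ hσ v v.2
      have h2 := hw σ hσ v v.2
      have h3 : (0 : ℤ) ≤ pr w (v : Fin m → ℤ) := by
        push Not at hv
        linarith
      have h4 : (0 : ℝ) ≤ (pr w (v : Fin m → ℤ) : ℝ) := by exact_mod_cast h3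
      nlinarith
  choose A hA0 hA1 using hA
  refine ⟨∑ v : σ, A v, Finset.sum_nonneg fun v _ => hA0 v, ?_⟩
  intro L hL hcone
  obtain ⟨a, ha, ha2⟩ := hcone
  obtain ⟨b, hb⟩ := span_coord (hF.1 σ hσ) (hF.2.1 σ hσ) (fun i => (L i).im)
  let l : σ → ℂ := fun v => ⟨-(a v), b v⟩
  have hLl : ∀ i, L i = ∑ v : σ, ((v : Fin m → ℤ) i : ℂ) * l v := by
    intro i
    have h1 := congrFun ha2 i
    have h2 := congrFun hb i
    rw [Finset.sum_apply] at h1 h2
    rw [← Finset.sum_coe_sort] at h1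
    simp only [Pi.smul_apply, smul_eq_mul, toR] at h1 h2
    apply Complex.ext
    · rw [Complex.re_sum]
      have h3 : (L i).re = -∑ v : σ, a v * ((v : Fin m → ℤ) i : ℝ) := by
        rw [← h1]
        ring
      rw [h3, ← Finset.sum_neg_distrib]
      refine Finset.sum_congr rfl fun v _ => ?_
      rw [Complex.mul_re, Complex.intCast_re, Complex.intCast_im]
      ring
    · rw [Complex.im_sum, ← h2]
      refine Finset.sum_congr rfl fun v _ => ?_
      rw [Complex.mul_im, Complex.intCast_re, Complex.intCast_im]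
      ring
  have hev := eval_chart d f σ (fun u hu v hv => hs u hu σ hσ v hv) l L hLl
  rw [hL, mul_zero] at hev
  rw [pair_eq σ l L hLl w, Complex.re_sum]
  refine Finset.sum_le_sum fun v _ => ?_
  have h1 : ((pr w (v : Fin m → ℤ) : ℂ) * l v).re = -(pr w (v : Fin m → ℤ) : ℝ) * a v := by
    rw [Complex.mul_re, Complex.intCast_re, Complex.intCast_im]
    ring
  rw [h1]
  refine hA1 v (a v) (ha v v.2) (fun _ => ⟨fun v => Complex.exp (l v), ?_, hev, ?_⟩)
  · intro v'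
    rw [Complex.norm_exp]
    exact Real.exp_le_one_iff.2 (neg_nonpos.2 (ha v' v'.2))
  · rw [Complex.norm_exp]

theorem bdd : BddStm := by
  intro m F d f hF hs ht w hw
  have h := fun σ : F => bdd_chart F d f hF hs ht w hw σ.1 σ.2
  choose C hC0 hC using h
  refine ⟨∑ σ : F, C σ, fun L hL => ?_⟩
  obtain ⟨σ, hσ, hx⟩ := hF.2.2.1 (fun i => -(L i).re)
  exact (hC ⟨σ, hσ⟩ L hL hx).trans
    (Finset.single_le_sum (fun τ _ => hC0 τ) (Finset.mem_univ (⟨σ, hσ⟩ : F)))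

end Pool.Agent.W2helper6.TW
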